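import Pool.Agent.Helper81.XP.StB

set_option autoImplicit false

/-!
MP_f90738_co: ST_CNA.
-/

open Finset
open scoped Pointwise LinearAlgebra.Projectivization

namespace Pool.Agent.Helper97.XP

open Pool.Agent.Helper81.XP
open Polynomial

section general

variable {A K : Type} [CommRing A] [Field K]

theorem cna_roots (f : A →+* K) (P : A[X]) (n : ℕ) (hn : P.natDegree ≤ n)
    (hc : f (P.coeff n) ≠ 0) : ∃ S : Finset K, S.card ≤ n ∧ ∀ x, x ∈ S ↔ P.eval₂ f x = 0 := by
  classical
  have h0 : P.map f ≠ 0 := by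
    intro h
    apply hc
    have := congrArg (fun q => q.coeff n) h
    simpa using this
  refine ⟨(P.map f).roots.toFinset, ?_, fun x => ?_⟩
  · exact ((Multiset.toFinset_card_le _).trans (card_roots' _)).trans
      ((natDegree_map_le).trans hn)
  · rw [Multiset.mem_toFinset, mem_roots h0, IsRoot.def, eval_map]

theorem cna_minpoly {L : Type} [Field L] [Algebra K L] (f : A →+* K) (P : A[X]) (n : ℕ)
    (hn : P.natDegree ≤ n) (hc : f (P.coeff n) ≠ 0) (x : L)
    (hx : P.eval₂ ((algebraMap K L).comp f) x = 0) :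
    IsIntegral K x ∧ (minpoly K x).natDegree ≤ n := by
  have h0 : P.map f ≠ 0 := by
    intro h
    apply hc
    have := congrArg (fun q => q.coeff n) h
    simpa using this
  have h1 : aeval x (P.map f) = 0 := by
    rw [aeval_def, eval₂_map, hx]
  refine ⟨(isAlgebraic_iff_isIntegral).1 ⟨_, h0, h1⟩, ?_⟩
  exact (natDegree_le_of_dvd (minpoly.dvd K x h1) h0).trans ((natDegree_map_le).trans hn)

theorem cna_int {B : Type} [CommRing B] [Algebra A B] (P : A[X]) (n : ℕ)
    (hn : P.natDegree ≤ n) (u : A) (hu : u * P.coeff n = 1) (x : B)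
    (hx : P.eval₂ (algebraMap A B) x = 0) : IsIntegral A x := by
  refine ⟨C u * P, ?_, ?_⟩
  · refine monic_of_natDegree_le_of_coeff_eq_one n ?_ ?_
    · exact (natDegree_C_mul_le _ _).trans hn
    · rw [coeff_C_mul, hu]
  · rw [eval₂_mul, hx, mul_zero]

theorem cna_val (O : ValuationSubring K) (f : A →+* K) (P : A[X]) (n : ℕ)
    (hn : P.natDegree ≤ n) (τ : O.ValueGroup) (hτ : 0 < τ)
    (h1 : O.valuation (f (P.coeff n)) = 1)
    (h2 : ∀ i < n, O.valuation (f (P.coeff i)) ≤ τ ^ (n - i)) (x : K)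
    (hx : P.eval₂ f x = 0) : O.valuation x ≤ τ := by
  by_contra h
  push Not at h
  have hx0 : 0 < O.valuation x := hτ.trans h
  rw [eval₂_eq_sum_range' f (Nat.lt_succ_of_le hn), Finset.sum_range_succ] at hx
  have h3 : f (P.coeff n) * x ^ n = -∑ i ∈ range n, f (P.coeff i) * x ^ i := by
    linear_combination hx
  have h4 : O.valuation (f (P.coeff n) * x ^ n) = O.valuation x ^ n := by
    rw [map_mul, h1, one_mul, map_pow]
  rw [h3, Valuation.map_neg] at h4
  have h5 : O.valuation (∑ i ∈ range n, f (P.coeff i) * x ^ i) < O.valuation x ^ n := by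
    refine Valuation.map_sum_lt _ (pow_pos hx0 n).ne' fun i hi => ?_
    rw [mem_range] at hi
    rw [map_mul, map_pow]
    have h6 : τ ^ (n - i) < O.valuation x ^ (n - i) :=
      pow_lt_pow_left₀ h hτ.le (by omega)
    calc O.valuation (f (P.coeff i)) * O.valuation x ^ i
        ≤ τ ^ (n - i) * O.valuation x ^ i := mul_le_mul_left (h2 i hi) _
      _ < O.valuation x ^ (n - i) * O.valuation x ^ i :=
          mul_lt_mul_of_pos_right h6 (pow_pos hx0 i)
      _ = O.valuation x ^ n := by rw [← pow_add]; congr 1; omega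
  rw [h4] at h5
  exact lt_irrefl _ h5

end general

variable {k : Type} [Field k]

theorem cna_nd2 {N : ℕ} {F : T2 k} (h : TD2 N F) : F.natDegree ≤ N := by
  rw [natDegree_le_iff_coeff_eq_zero]
  intro i hi
  by_contra hne
  obtain ⟨j, hj⟩ : ∃ j, (F.coeff i).coeff j ≠ 0 := by
    by_contra hcon
    push Not at hcon
    exact hne (Polynomial.ext fun j => by rw [hcon j, coeff_zero])
  have := h i j hj
  omega

theorem cna_nd3 {N : ℕ} {F : T3 k} (h : TD3 N F) : F.natDegree ≤ N := by
  rw [natDegree_le_iff_coeff_eq_zero]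
  intro i hi
  by_contra hne
  obtain ⟨j, hj⟩ : ∃ j, (F.coeff i).coeff j ≠ 0 := by
    by_contra hcon
    push Not at hcon
    exact hne (Polynomial.ext fun j => by rw [hcon j, coeff_zero])
  obtain ⟨l, hl⟩ : ∃ l, ((F.coeff i).coeff j).coeff l ≠ 0 := by
    by_contra hcon
    push Not at hcon
    exact hj (Polynomial.ext fun j => by rw [hcon j, coeff_zero])
  have := h i j l hl
  omega

theorem cna_td {N : ℕ} {F : T3 k} (h : TD3 N F) (i : ℕ) : TD2 (N - i) (F.coeff i) := by
  intro j l hjl
  have := h i j l hjl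
  omega

section ev
variable {K : Type} [CommRing K] [Algebra k K]

theorem cna_ev2 (a b : K) (F : T2 k) :
    ev2 a b F = F.eval₂ (eval₂RingHom (algebraMap k K) a) b := rfl

theorem cna_ev3 (a b c : K) (F : T3 k) : ev3 a b c F = F.eval₂ (ev2 a b) c := rfl

theorem cna_ev2C (a b : K) (c : k) : ev2 a b (C (C c)) = algebraMap k K c := by
  rw [cna_ev2, eval₂_C]
  simp

theorem cna_map2 {L : Type} [CommRing L] [Algebra k L] (φ : K →+* L)
    (hφ : ∀ c : k, φ (algebraMap k K c) = algebraMap k L c) (a b : K) (F : T2 k) :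
    φ (ev2 a b F) = ev2 (φ a) (φ b) F := by
  rw [cna_ev2, cna_ev2, hom_eval₂]
  congr 1
  ext c
  · simp [hφ]
  · simp

theorem cna_map3 {L : Type} [CommRing L] [Algebra k L] (φ : K →+* L)
    (hφ : ∀ c : k, φ (algebraMap k K c) = algebraMap k L c) (a b c : K) (F : T3 k) :
    φ (ev3 a b c F) = ev3 (φ a) (φ b) (φ c) F := by
  rw [cna_ev3, cna_ev3, hom_eval₂]
  congr 1
  refine RingHom.ext fun G => ?_
  exact cna_map2 φ hφ a b G

end ev

/-! valuations -/

section val

variable {K : Type} [Field K] [Algebra k K] (O : ValuationSubring K)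

theorem cna_valA (hc : ∀ c : k, O.valuation (algebraMap k K c) ≤ 1) {t : K}
    (ht : 1 ≤ O.valuation t) (r : k[X]) (m : ℕ) (hr : ∀ j, r.coeff j ≠ 0 → j ≤ m) :
    O.valuation (eval₂RingHom (algebraMap k K) t r) ≤ O.valuation t ^ m := by
  have hd : r.natDegree ≤ m := by
    rw [natDegree_le_iff_coeff_eq_zero]
    intro i hi
    by_contra hne
    exact absurd (hr i hne) (by omega)
  rw [coe_eval₂RingHom, eval₂_eq_sum_range' _ (Nat.lt_succ_of_le hd)]
  refine Valuation.map_sum_le _ fun i hi => ?_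
  rw [mem_range] at hi
  rw [map_mul, map_pow]
  calc O.valuation (algebraMap k K (r.coeff i)) * O.valuation t ^ i
      ≤ 1 * O.valuation t ^ i := mul_le_mul_left (hc _) _
    _ = O.valuation t ^ i := one_mul _
    _ ≤ O.valuation t ^ m := pow_le_pow_right₀ ht (by omega)

theorem cna_valB (hc : ∀ c : k, O.valuation (algebraMap k K c) ≤ 1) {t s : K}
    (ht : 1 ≤ O.valuation t) (hs : O.valuation s ≤ O.valuation t) (F : T2 k) (m : ℕ)
    (hF : TD2 m F) : O.valuation (ev2 t s F) ≤ O.valuation t ^ m := by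
  rw [cna_ev2, eval₂_eq_sum_range' _ (Nat.lt_succ_of_le (cna_nd2 hF))]
  refine Valuation.map_sum_le _ fun i hi => ?_
  rw [mem_range] at hi
  rw [map_mul, map_pow]
  have h1 : O.valuation (eval₂RingHom (algebraMap k K) t (F.coeff i)) ≤
      O.valuation t ^ (m - i) := by
    refine cna_valA O hc ht _ _ fun j hj => ?_
    have := hF i j hj
    omega
  calc O.valuation (eval₂RingHom (algebraMap k K) t (F.coeff i)) * O.valuation s ^ i
      ≤ O.valuation t ^ (m - i) * O.valuation t ^ i :=
        mul_le_mul' h1 (pow_le_pow_left' hs i)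
    _ = O.valuation t ^ m := by rw [← pow_add]; congr 1; omega

end val

/-! the field of algebraic functions -/

theorem cna_const (c : k) : algebraMap k (Om k) c = algebraMap k[X] (Om k) (C c) := by
  rw [IsScalarTower.algebraMap_apply k k[X] (Om k)]
  rfl

theorem cna_f1 : eval₂RingHom (algebraMap k (Om k)) (tt k) = algebraMap k[X] (Om k) := by
  ext c
  · simp only [RingHom.comp_apply, coe_eval₂RingHom, eval₂_C]
    exact cna_const c
  · simp only [coe_eval₂RingHom, eval₂_X]
    rfl

theorem cna_f2 : eval₂RingHom (algebraMap k (Om k)) (tt k) =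
    (algebraMap (RatFunc k) (Om k)).comp (algebraMap k[X] (RatFunc k)) := by
  rw [cna_f1]
  exact IsScalarTower.algebraMap_eq _ _ _

theorem cna_inv (M : Matrix (Fin 3) (Fin 3) k) (hM : M.det ≠ 0) {K : Type} [CommRing K]
    [Algebra k K] (a b c : K) :
    a = ∑ i, algebraMap k K (M⁻¹ 0 i) * mv M a b c i + algebraMap k K 0 := by
  have h1 : M⁻¹ * M = 1 := Matrix.nonsing_inv_mul M (Ne.isUnit hM)
  have e : ∀ j, ∑ i, M⁻¹ 0 i * M i j = (1 : Matrix (Fin 3) (Fin 3) k) 0 j := fun j => by
    rw [← h1, Matrix.mul_apply]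
  have e0 := congrArg (algebraMap k K) (e 0)
  have e1 := congrArg (algebraMap k K) (e 1)
  have e2 := congrArg (algebraMap k K) (e 2)
  simp only [Fin.sum_univ_three, map_add, map_mul, Matrix.one_apply_eq, map_one] at e0 e1 e2
  rw [Matrix.one_apply_ne (by decide), map_zero] at e1 e2
  simp only [mv, Fin.sum_univ_three, map_zero]
  linear_combination (-a) * e0 - b * e1 - c * e2

theorem cna_mv (M : Matrix (Fin 3) (Fin 3) k) {K L : Type} [CommRing K] [CommRing L]
    [Algebra k K] [Algebra k L] (φ : K →+* L)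
    (hφ : ∀ c : k, φ (algebraMap k K c) = algebraMap k L c) (a b c : K) (i : Fin 3) :
    φ (mv M a b c i) = mv M (φ a) (φ b) (φ c) i := by
  simp only [mv, map_add, map_mul, hφ]

/-- part 1 -/
theorem cna_fin (M : Matrix (Fin 3) (Fin 3) k) (g : MvPolynomial (Fin 3) k) (R : T2 k)
    (d N : ℕ) (hg : Mo3 d (phi M g)) (hR : Mo2 N R) :
    ∃ S : Finset (Fin 3 → Om k), S.card ≤ N * d ∧ ∀ P, P ∈ S ↔ GP M g R P := by
  classical
  obtain ⟨hR1, c, hc, hR2⟩ := hR
  obtain ⟨hg1, c', hc', hg2⟩ := hg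
  obtain ⟨A, hA1, hA2⟩ := cna_roots (eval₂RingHom (algebraMap k (Om k)) (tt k)) R N
    (cna_nd2 hR1) (by rw [hR2]; simpa using hc)
  have hB : ∀ s : Om k, ∃ B : Finset (Om k), B.card ≤ d ∧
      ∀ w, w ∈ B ↔ (phi M g).eval₂ (ev2 (tt k) s) w = 0 := fun s =>
    cna_roots (ev2 (tt k) s) (phi M g) d (cna_nd3 hg1) (by
      rw [hg2, cna_ev2C]
      simpa using hc')
  choose B hB1 hB2 using hB
  refine ⟨A.biUnion fun s => (B s).image fun w => mv M (tt k) s w, ?_, fun P => ?_⟩
  · refine (Finset.card_biUnion_le_card_mul _ _ d fun s _ => ?_).trans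
      (Nat.mul_le_mul_right d hA1)
    exact Finset.card_image_le.trans (hB1 s)
  · simp only [mem_biUnion, mem_image]
    constructor
    · rintro ⟨s, hs, w, hw, rfl⟩
      exact ⟨s, w, rfl, (hA2 s).1 hs, (hB2 s w).1 hw⟩
    · rintro ⟨s, w, rfl, hs, hw⟩
      exact ⟨s, (hA2 s).2 hs, w, (hB2 s w).2 hw, rfl⟩

theorem cna_sint (R : T2 k) (N : ℕ) (hR : Mo2 N R) (s : Om k) (hs : ev2 (tt k) s R = 0) :
    IsIntegral k[X] s := by
  obtain ⟨hR1, c, hc, hR2⟩ := hR
  refine cna_int R N (cna_nd2 hR1) (C c⁻¹) ?_ s ?_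
  · rw [hR2, ← C_mul, inv_mul_cancel₀ hc, C_1]
  · rw [cna_ev2, cna_f1] at hs
    exact hs

theorem cna_wint (G : T3 k) (d : ℕ) (hG : Mo3 d G) (s w : Om k) (hs : IsIntegral k[X] s)
    (hw : ev3 (tt k) s w G = 0) : IsIntegral k[X] w := by
  obtain ⟨hG1, c, hc, hG2⟩ := hG
  set B := integralClosure k[X] (Om k) with hB
  let s' : B := ⟨s, hs⟩
  let F : T2 k →+* B := eval₂RingHom (algebraMap k[X] B) s'
  have hF : (algebraMap B (Om k)).comp F = ev2 (tt k) s := by
    refine RingHom.ext fun H => ?_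
    rw [RingHom.comp_apply, cna_ev2, cna_f1]
    simp only [F, coe_eval₂RingHom]
    rw [hom_eval₂]
    rfl
  have h1 : IsIntegral B w := by
    refine cna_int (A := B) (G.map F) d ((natDegree_map_le).trans (cna_nd3 hG1))
      (algebraMap k[X] B (C c⁻¹)) ?_ w ?_
    · rw [coeff_map, hG2]
      simp only [F, coe_eval₂RingHom, eval₂_C]
      rw [← map_mul, ← C_mul, inv_mul_cancel₀ hc, C_1, map_one]
    · rw [eval₂_map, hF]
      exact hw
  exact isIntegral_trans (R := k[X]) (A := B) w h1

theorem cna_Pint (M : Matrix (Fin 3) (Fin 3) k) (s w : Om k) (hs : IsIntegral k[X] s)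
    (hw : IsIntegral k[X] w) (i : Fin 3) : IsIntegral k[X] (mv M (tt k) s w i) := by
  have hc : ∀ c : k, IsIntegral k[X] (algebraMap k (Om k) c) := fun c => by
    rw [cna_const]
    exact isIntegral_algebraMap
  have ht : IsIntegral k[X] (tt k) := isIntegral_algebraMap
  exact (((hc _).mul ht).add ((hc _).mul hs)).add ((hc _).mul hw)

theorem cna_deg (R : T2 k) (N : ℕ) (hR : Mo2 N R) (G : T3 k) (d : ℕ) (hG : Mo3 d G)
    (M : Matrix (Fin 3) (Fin 3) k) (s w : Om k) (hs : ev2 (tt k) s R = 0)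
    (hw : ev3 (tt k) s w G = 0) (i : Fin 3) :
    (minpoly (RatFunc k) (mv M (tt k) s w i)).natDegree ≤ N * d := by
  obtain ⟨hR1, c, hc, hR2⟩ := hR
  obtain ⟨hG1, c', hc', hG2⟩ := hG
  have hinj : Function.Injective (algebraMap k[X] (RatFunc k)) :=
    IsFractionRing.injective k[X] (RatFunc k)
  obtain ⟨a1, a2⟩ := cna_minpoly (L := Om k) (algebraMap k[X] (RatFunc k)) R N (cna_nd2 hR1)
    (by rw [hR2]; exact fun h => hc (C_injective (hinj (by rw [h, map_zero, map_zero])))) s
    (by rw [← cna_f2]; exact hs)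
  let K1 : IntermediateField (RatFunc k) (Om k) := IntermediateField.adjoin (RatFunc k) {s}
  let s' : K1 := ⟨s, IntermediateField.mem_adjoin_simple_self (RatFunc k) s⟩
  have b1 : Module.finrank (RatFunc k) K1 ≤ N := by
    have : Module.finrank (RatFunc k) K1 = (minpoly (RatFunc k) s).natDegree :=
      IntermediateField.adjoin.finrank a1
    rw [this]
    exact a2
  have b2 : FiniteDimensional (RatFunc k) K1 := IntermediateField.adjoin.finiteDimensional a1
  let f : T2 k →+* K1 :=
    eval₂RingHom ((algebraMap (RatFunc k) K1).comp (algebraMap k[X] (RatFunc k))) s'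
  have hf : (algebraMap K1 (Om k)).comp f = ev2 (tt k) s := by
    refine RingHom.ext fun H => ?_
    rw [RingHom.comp_apply, cna_ev2, cna_f2]
    simp only [f, coe_eval₂RingHom]
    rw [hom_eval₂]
    rfl
  obtain ⟨a3, a4⟩ := cna_minpoly (L := Om k) f G d (cna_nd3 hG1)
    (by
      intro h
      have h2 : ev2 (tt k) s (G.coeff d) = 0 := by
        rw [← hf, RingHom.comp_apply, h, map_zero]
      rw [hG2, cna_ev2C] at h2
      exact hc' (by simpa using h2)) w
    (by rw [hf]; exact hw)
  let K2 : IntermediateField K1 (Om k) := IntermediateField.adjoin K1 {w}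
  have b3 : Module.finrank K1 K2 ≤ d := by
    have : Module.finrank K1 K2 = (minpoly K1 w).natDegree :=
      IntermediateField.adjoin.finrank a3
    rw [this]
    exact a4
  have b4 : FiniteDimensional K1 K2 := IntermediateField.adjoin.finiteDimensional a3
  have b5 : FiniteDimensional (RatFunc k) K2 := FiniteDimensional.trans (RatFunc k) K1 K2
  have : Module.Free K1 K2 := Module.Free.of_divisionRing K1 K2
  have : Module.Free (RatFunc k) K1 := Module.Free.of_divisionRing (RatFunc k) K1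
  have : IsScalarTower (RatFunc k) K2 (Om k) := IsScalarTower.of_algebraMap_eq fun _ => rfl
  have b6 : Module.finrank (RatFunc k) K2 ≤ N * d := by
    rw [← Module.finrank_mul_finrank (RatFunc k) K1 K2]
    exact Nat.mul_le_mul b1 b3
  have hw2 : w ∈ K2 := IntermediateField.mem_adjoin_simple_self K1 w
  have hs2 : s ∈ K2 := K2.algebraMap_mem s'
  have hF2 : ∀ x : RatFunc k, algebraMap (RatFunc k) (Om k) x ∈ K2 := fun x =>
    K2.algebraMap_mem (algebraMap (RatFunc k) K1 x)
  have ht2 : tt k ∈ K2 := by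
    have : tt k = algebraMap (RatFunc k) (Om k) (algebraMap k[X] (RatFunc k) X) :=
      IsScalarTower.algebraMap_apply _ _ _ _
    rw [this]
    exact hF2 _
  have hc2 : ∀ c : k, algebraMap k (Om k) c ∈ K2 := fun c => by
    rw [IsScalarTower.algebraMap_apply k (RatFunc k) (Om k)]
    exact hF2 _
  have hP : mv M (tt k) s w i ∈ K2 :=
    K2.add_mem (K2.add_mem (K2.mul_mem (hc2 _) ht2) (K2.mul_mem (hc2 _) hs2))
      (K2.mul_mem (hc2 _) hw2)
  have e1 : minpoly (RatFunc k) (mv M (tt k) s w i) =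
      minpoly (RatFunc k) (⟨_, hP⟩ : K2) :=
    minpoly.algebraMap_eq (A := RatFunc k) (B := K2) (B' := Om k)
      (algebraMap K2 (Om k)).injective ⟨_, hP⟩
  rw [e1]
  exact (minpoly.natDegree_le _).trans b6

theorem st_CNA (hVAI : ST_VAI) : ST_CNA := by
  intro k _ M g R d N hM hg hR
  refine ⟨cna_fin M g R d N hg hR, ?_⟩
  rintro P ⟨s, w, rfl, hs, hw⟩
  have hsi := cna_sint R N hR s hs
  have hwi := cna_wint (phi M g) d hg s w hsi hw
  refine ⟨cna_Pint M s w hsi hwi, ⟨M⁻¹ 0, 0, cna_inv M hM _ _ _⟩,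
    cna_deg R N hR (phi M g) d hg M s w hs hw, ?_, ?_⟩
  · intro σ
    have h1 : ∀ c : k, (σ : Om k →+* Om k) (algebraMap k (Om k) c) = algebraMap k (Om k) c :=
      fun c => by
        rw [IsScalarTower.algebraMap_apply k (RatFunc k) (Om k)]
        exact σ.commutes _
    have h2 : (σ : Om k →+* Om k) (tt k) = tt k := by
      have : tt k = algebraMap (RatFunc k) (Om k) (algebraMap k[X] (RatFunc k) X) :=
        IsScalarTower.algebraMap_apply _ _ _ _
      rw [this]
      exact σ.commutes _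
    refine ⟨σ s, σ w, ?_, ?_, ?_⟩
    · funext i
      have := cna_mv M (σ : Om k →+* Om k) h1 (tt k) s w i
      rw [h2] at this
      exact this
    · have := cna_map2 (σ : Om k →+* Om k) h1 (tt k) s R
      rw [h2, hs, map_zero] at this
      exact this.symm
    · have := cna_map3 (σ : Om k →+* Om k) h1 (tt k) s w (phi M g)
      rw [h2, hw, map_zero] at this
      exact this.symm
  · intro O hO
    obtain ⟨v1, v2, _⟩ := (hVAI k).2 O hO
    have hc : ∀ c : k, O.valuation (algebraMap k (Om k) c) ≤ 1 := fun c =>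
      (O.valuation_le_one_iff _).2 (hO.1 c)
    have ht0 : 0 < O.valuation (tt k) := zero_lt_one.trans v2
    have hsv : O.valuation s ≤ O.valuation (tt k) := by
      obtain ⟨hR1, c, hc0, hR2⟩ := hR
      refine cna_val O (eval₂RingHom (algebraMap k (Om k)) (tt k)) R N (cna_nd2 hR1) _ ht0
        ?_ ?_ s hs
      · rw [hR2]
        simp only [coe_eval₂RingHom, eval₂_C]
        exact v1 c hc0
      · intro i _
        refine cna_valA O hc v2.le _ _ fun j hj => ?_
        have := hR1 i j hj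
        omega
    have hwv : O.valuation w ≤ O.valuation (tt k) := by
      obtain ⟨hg1, c, hc0, hg2⟩ := hg
      refine cna_val O (ev2 (tt k) s) (phi M g) d (cna_nd3 hg1) _ ht0 ?_ ?_ w hw
      · rw [hg2, cna_ev2C]
        exact v1 c hc0
      · intro i _
        exact cna_valB O hc v2.le hsv _ _ (cna_td hg1 i)
    have hm : ∀ (c : k) (x : Om k), O.valuation x ≤ O.valuation (tt k) →
        O.valuation (algebraMap k (Om k) c * x) ≤ O.valuation (tt k) := fun c x hx => by
      rw [map_mul]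
      calc O.valuation (algebraMap k (Om k) c) * O.valuation x ≤ 1 * O.valuation x :=
            mul_le_mul_left (hc c) _
        _ = O.valuation x := one_mul _
        _ ≤ _ := hx
    intro i
    exact Valuation.map_add_le _ (Valuation.map_add_le _ (hm _ _ le_rfl) (hm _ _ hsv))
      (hm _ _ hwv)

end Pool.Agent.Helper97.XP
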