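import Pool.Agent.Helper81.XP.StB

set_option autoImplicit false

/-!
MP_f90738_co: ST_DET.
-/

open Finset
open scoped Pointwise LinearAlgebra.Projectivization

namespace Pool.Agent.Helper97.XP

open Pool.Agent.Helper81.XP

section poly

variable {k : Type} [Field k]

theorem det_irr {q : MvPolynomial (Fin 3) k} (hq : Irreducible q) : 1 ≤ q.totalDegree := by
  by_contra h
  have h0 : q.totalDegree = 0 := by omega
  rw [MvPolynomial.totalDegree_eq_zero_iff_eq_C] at h0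
  apply hq.not_isUnit
  rw [h0]
  have : MvPolynomial.coeff 0 q ≠ 0 := by
    intro h1
    rw [h1, map_zero] at h0
    exact hq.ne_zero h0
  exact (Ne.isUnit this).map MvPolynomial.C

theorem det_deg (s : Multiset (MvPolynomial (Fin 3) k)) (hs : ∀ q ∈ s, Irreducible q) :
    s.card ≤ s.prod.totalDegree := by
  induction s using Multiset.induction_on with
  | empty => simp
  | cons a s ih =>
    have ha := hs a (Multiset.mem_cons_self a s)
    have hs' : ∀ q ∈ s, Irreducible q := fun q hq => hs q (Multiset.mem_cons_of_mem hq)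
    have h0 : s.prod ≠ 0 := by
      intro h
      rw [Multiset.prod_eq_zero_iff] at h
      exact (hs' 0 h).ne_zero rfl
    rw [Multiset.prod_cons, MvPolynomial.totalDegree_mul_of_isDomain ha.ne_zero h0,
      Multiset.card_cons]
    have := ih hs'
    have := det_irr ha
    omega

theorem det_fac (F : MvPolynomial (Fin 3) k) (hF : F ≠ 0) (D : ℕ) (hD : F.totalDegree ≤ D) :
    ∃ Z : Finset (MvPolynomial (Fin 3) k), Z.card ≤ D ∧
      (∀ q ∈ Z, Irreducible q ∧ q.totalDegree ≤ D) ∧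
      ∀ e : Fin 3 → k, MvPolynomial.eval e F = 0 → ∃ q ∈ Z, MvPolynomial.eval e q = 0 := by
  classical
  obtain ⟨s, hs1, u, hu⟩ := WfDvdMonoid.exists_factors F hF
  have hs0 : s.prod ≠ 0 := by
    intro h
    rw [Multiset.prod_eq_zero_iff] at h
    exact (hs1 0 h).ne_zero rfl
  have hu0 : (u : MvPolynomial (Fin 3) k) ≠ 0 := u.ne_zero
  have hdF : F.totalDegree = s.prod.totalDegree + (u : MvPolynomial (Fin 3) k).totalDegree := by
    rw [← hu, MvPolynomial.totalDegree_mul_of_isDomain hs0 hu0]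
  refine ⟨s.toFinset, ?_, fun q hq => ?_, fun e he => ?_⟩
  · exact (Multiset.toFinset_card_le s).trans ((det_deg s hs1).trans (by omega))
  · rw [Multiset.mem_toFinset] at hq
    refine ⟨hs1 q hq, ?_⟩
    obtain ⟨r, hr⟩ := Multiset.dvd_prod hq
    have hr0 : r ≠ 0 := by
      rintro rfl
      rw [mul_zero] at hr
      exact hs0 hr
    have : s.prod.totalDegree = q.totalDegree + r.totalDegree := by
      rw [hr, MvPolynomial.totalDegree_mul_of_isDomain (hs1 q hq).ne_zero hr0]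
    omega
  · rw [← hu, map_mul] at he
    have h1 : MvPolynomial.eval e (u : MvPolynomial (Fin 3) k) ≠ 0 :=
      (u.isUnit.map (MvPolynomial.eval e)).ne_zero
    have h2 : MvPolynomial.eval e s.prod = 0 := by
      rcases mul_eq_zero.1 he with h | h
      · exact h
      · exact absurd h h1
    rw [map_multiset_prod, Multiset.prod_eq_zero_iff, Multiset.mem_map] at h2
    obtain ⟨q, hq, hq2⟩ := h2
    exact ⟨q, Multiset.mem_toFinset.2 hq, hq2⟩

theorem det_mv (M : Matrix (Fin 3) (Fin 3) k) (hM : M.det ≠ 0) (e : Fin 3 → k) :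
    ∃ a b c : k, e = mv M a b c := by
  set v : Fin 3 → k := M⁻¹.mulVec e with hv
  have h1 : M.mulVec v = e := by
    rw [hv, Matrix.mulVec_mulVec, Matrix.mul_nonsing_inv M (Ne.isUnit hM), Matrix.one_mulVec]
  refine ⟨v 0, v 1, v 2, ?_⟩
  funext i
  rw [← h1]
  simp [mv, Matrix.mulVec, dotProduct, Fin.sum_univ_three]

end poly

open Classical in
/-- one irreducible factor -/
theorem det_one (hELR : ST_ELR) (hCNC : ST_CNC) (k : Type) [Field k] [IsAlgClosed k] (p : ℕ)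
    [Fact p.Prime] [CharP k p] (D : ℕ) (E : Finset (Fin 3 → k)) (hp : 4 * D ^ 3 < p)
    (hE : ∀ e ∈ E, Good e) (q : MvPolynomial (Fin 3) k) (hq : Irreducible q)
    (hqD : q.totalDegree ≤ D) (g : Fin 4 → MvPolynomial (Fin 3) k)
    (hgD : ∀ l, (g l).totalDegree ≤ D) (l : Fin 4) (hgl : ¬ q ∣ g l) :
    ∃ L : Finset (Fin 3 → Om k), L.card ≤ 4 * D ^ 3 ∧ (∀ P ∈ L, InCls P) ∧
    ∀ h : Fin 4 → MvPolynomial (Fin 3) k, (∀ l, (h l).totalDegree ≤ D) →
      (∀ P ∈ L, ∃ l, MvPolynomial.aeval P (h l) ≠ 0) →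
      (E.filter (fun e => MvPolynomial.eval e q = 0 ∧ (∀ l, MvPolynomial.eval e (g l) = 0) ∧
        ∀ l, MvPolynomial.eval e (h l) = 0)).card ≤ 16 * D ^ 7 := by
  obtain ⟨M, d, N, R, hM, _, hdD, hN, hMo3, hMo2, hR⟩ := hELR k q (g l) D hq hgl hqD (hgD l)
  have hNd : N * d ≤ 4 * D ^ 3 := by
    calc N * d ≤ 4 * D ^ 2 * D := Nat.mul_le_mul hN hdD
      _ = 4 * D ^ 3 := by ring
  obtain ⟨L, hL1, hL2, hL3⟩ := hCNC k p M q R d N D hM hMo3 hMo2 (hNd.trans_lt hp)
  refine ⟨L, hL1.trans hNd, hL2, fun h hh hP => ?_⟩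
  refine (hL3 h hh hP _ ?_).trans ?_
  · intro e he
    rw [mem_filter] at he
    obtain ⟨heE, he1, he2, he3⟩ := he
    refine ⟨hE e heE, he3, ?_⟩
    obtain ⟨a, b, c, rfl⟩ := det_mv M hM e
    exact ⟨a, b, c, rfl, hR a b c he1 (he2 l), he1⟩
  · calc N * d * (D * (N * d)) ≤ 4 * D ^ 3 * (D * (4 * D ^ 3)) :=
          Nat.mul_le_mul hNd (Nat.mul_le_mul_left D hNd)
      _ = 16 * D ^ 7 := by ring

theorem st_DET (hSPE : ST_SPE) (hELR : ST_ELR) (hCNC : ST_CNC) : ST_DET := by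
  classical
  intro k _ _ p _ _ D E hp hE f hf hf0
  have hinf : Infinite k := IsAlgClosed.instInfinite
  obtain ⟨l0, hl0⟩ := hf0
  obtain ⟨Z, hZ1, hZ2, hZ3⟩ := det_fac (f l0) hl0 D (hf l0)
  set Y := Z.filter (fun q => ∃ e ∈ E, MvPolynomial.eval e q = 0) with hY
  have hYc : Y.card ≤ D := (card_filter_le _ _).trans hZ1
  have hYP : ∀ q ∈ Y, ∃ P : Fin 3 → Om k, InCls P ∧ MvPolynomial.aeval P q = 0 := by
    intro q hq
    rw [hY, mem_filter] at hq
    obtain ⟨hqZ, e, heE, he⟩ := hq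
    exact hSPE k q e (hZ2 q hqZ).1.ne_zero he (hE e heE)
  choose! P hP1 hP2 using hYP
  refine ⟨Y.image P, card_image_le.trans hYc, ?_, ?_⟩
  · intro Q hQ
    rw [mem_image] at hQ
    obtain ⟨q, hq, rfl⟩ := hQ
    exact hP1 q hq
  intro g hg hgP
  have hL : ∀ q ∈ Y, ∃ L : Finset (Fin 3 → Om k), L.card ≤ 4 * D ^ 3 ∧ (∀ P ∈ L, InCls P) ∧
    ∀ h : Fin 4 → MvPolynomial (Fin 3) k, (∀ l, (h l).totalDegree ≤ D) →
      (∀ P ∈ L, ∃ l, MvPolynomial.aeval P (h l) ≠ 0) →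
      (E.filter (fun e => MvPolynomial.eval e q = 0 ∧ (∀ l, MvPolynomial.eval e (g l) = 0) ∧
        ∀ l, MvPolynomial.eval e (h l) = 0)).card ≤ 16 * D ^ 7 := by
    intro q hq
    obtain ⟨l, hl⟩ := hgP (P q) (mem_image_of_mem P hq)
    have hqZ : q ∈ Z := (mem_filter.1 hq).1
    refine det_one hELR hCNC k p D E hp hE q (hZ2 q hqZ).1 (hZ2 q hqZ).2 g hg l ?_
    rintro ⟨r, hr⟩
    apply hl
    rw [hr, map_mul, hP2 q hq, zero_mul]
  choose! L hL1 hL2 hL3 using hL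
  refine ⟨Y.biUnion L, ?_, ?_, ?_⟩
  · calc (Y.biUnion L).card ≤ Y.card * (4 * D ^ 3) := card_biUnion_le_card_mul _ _ _ hL1
      _ ≤ D * (4 * D ^ 3) := Nat.mul_le_mul_right _ hYc
      _ = 4 * D ^ 4 := by ring
  · intro Q hQ
    rw [mem_biUnion] at hQ
    obtain ⟨q, hq, hQ⟩ := hQ
    exact hL2 q hq Q hQ
  intro h hh hhP
  have hsub : E.filter (fun e => ∀ l, MvPolynomial.eval e (f l) = 0 ∧
      MvPolynomial.eval e (g l) = 0 ∧ MvPolynomial.eval e (h l) = 0) ⊆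
      Y.biUnion fun q => E.filter (fun e => MvPolynomial.eval e q = 0 ∧
        (∀ l, MvPolynomial.eval e (g l) = 0) ∧ ∀ l, MvPolynomial.eval e (h l) = 0) := by
    intro e he
    rw [mem_filter] at he
    obtain ⟨heE, he⟩ := he
    obtain ⟨q, hq, hq2⟩ := hZ3 e (he l0).1
    rw [mem_biUnion]
    refine ⟨q, ?_, ?_⟩
    · rw [hY, mem_filter]
      exact ⟨hq, e, heE, hq2⟩
    · rw [mem_filter]
      exact ⟨heE, hq2, fun l => (he l).2.1, fun l => (he l).2.2⟩
  refine (card_le_card hsub).trans ?_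
  refine (card_biUnion_le_card_mul _ _ (16 * D ^ 7) fun q hq => ?_).trans ?_
  · refine hL3 q hq h hh fun Q hQ => hhP Q ?_
    rw [mem_biUnion]
    exact ⟨q, hq, hQ⟩
  · calc Y.card * (16 * D ^ 7) ≤ D * (16 * D ^ 7) := Nat.mul_le_mul_right _ hYc
      _ = 16 * D ^ 8 := by ring

end Pool.Agent.Helper97.XP
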